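import Pool.Agent.Helper111.EN.Main

set_option autoImplicit false

/-!
# Sufficient sets of primes for locally nilpotent `n`-Engel groups

A set `π` of primes (not containing all primes) is sufficient for `n` if and only if it contains
the set `U n` of the primes `p` for which there is a non-nilpotent locally nilpotent `n`-Engel
`p`-group; these are the primes for which the finite `n`-Engel `p`-groups have unbounded class.
The sufficient sets are closed under arbitrary nonempty intersections: the set of the primes
which lie in every sufficient set is itself sufficient (if there is a sufficient set at all, which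
is known). If a set of primes which omits a prime is sufficient, then `U n` is finite, and
excluding the primes of any such set even bounds the nilpotency class.
-/

open Set

universe u

namespace Pool.Agent.Results.MP_cd48d2_al.LeastSufficientSet

open Pool.Agent.Helper111.EN

/-- The primes `p` for which there is a non-nilpotent locally nilpotent `n`-Engel `p`-group. -/
def U (n : ℕ) : Set ℕ :=
  {p | p.Prime ∧ ∃ (G : Type u) (_ : Group G), IsPGroup p G ∧ IsEngel n G ∧ LocNil G ∧
    ¬ Group.IsNilpotent G}

/-- Let `n` be a natural number. (1) A set `π` of primes which omits at least one prime is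
sufficient for `n` iff it contains `U n`. (2) The intersection of any nonempty family of
sufficient sets of primes is sufficient; in particular the set of the primes which lie in every
sufficient set is sufficient, as soon as some set of primes is sufficient. (3) `p ∈ U n` iff the
nilpotency classes of the finite `n`-Engel `p`-groups are unbounded. (4) If some sufficient set of
primes omits a prime, then `U n` is finite and sufficient, and for every sufficient set `π` of
primes which omits a prime there is a bound, depending only on `n` and `π`, for the class of the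
locally nilpotent `n`-Engel groups without elements of order in `π`. -/
theorem result (n : ℕ) :
    (∀ π : Set ℕ, π ⊆ {p | p.Prime} → (∃ q : ℕ, q.Prime ∧ q ∉ π) →
      (Sufficient.{u} n π ↔ U.{u} n ⊆ π)) ∧
    (∀ F : Set (Set ℕ), F.Nonempty → (∀ π ∈ F, π ⊆ {p | p.Prime} ∧ Sufficient.{u} n π) →
      Sufficient.{u} n (⋂₀ F)) ∧
    (∀ p : ℕ, p.Prime → (p ∈ U.{u} n ↔ Unbounded n p)) ∧
    ((∃ π : Set ℕ, π ⊆ {p | p.Prime} ∧ (∃ q : ℕ, q.Prime ∧ q ∉ π) ∧ Sufficient.{u} n π) →
      (U.{u} n).Finite ∧ Sufficient.{u} n (U.{u} n) ∧
      ∀ π : Set ℕ, π ⊆ {p | p.Prime} → (∃ q : ℕ, q.Prime ∧ q ∉ π) → Sufficient.{u} n π →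
        ∃ C : ℕ, ∀ (G : Type u) [Group G], IsEngel n G → LocNil G → NoOrder π G →
          Group.IsNilpotent G ∧ Group.nilpotencyClass G ≤ C) := by
  have hU : ∀ p : ℕ, p.Prime → (p ∈ U.{u} n ↔ Unbounded n p) := by
    intro p hp
    rw [unbounded_iff.{u} n p hp]
    exact ⟨fun h => h.2, fun h => ⟨hp, h⟩⟩
  have hiff : ∀ π : Set ℕ, π ⊆ {p | p.Prime} → (∃ q : ℕ, q.Prime ∧ q ∉ π) →
      (Sufficient.{u} n π ↔ U.{u} n ⊆ π) := by
    intro π hπ hq
    rw [sufficient_iff.{u} n π hπ hq]
    constructor
    · intro h p hp
      exact h p hp.1 ((hU p hp.1).1 hp)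
    · intro h p hp hpU
      exact h ((hU p hp).2 hpU)
  refine ⟨hiff, sufficient_sInter.{u} n, hU, ?_⟩
  rintro ⟨π, hπ, hq, hS⟩
  have hset : U.{u} n = {p : ℕ | p.Prime ∧ Unbounded n p} := by
    ext p
    constructor
    · intro hp
      exact ⟨hp.1, (hU p hp.1).1 hp⟩
    · rintro ⟨hp, h⟩
      exact (hU p hp).2 h
  have hUπ : U.{u} n ⊆ π := (hiff π hπ hq).1 hS
  have hfin : (U.{u} n).Finite := by
    rw [hset]
    exact (finite_and_bound.{u} n π hπ hq hS).1
  refine ⟨hfin, ?_, ?_⟩
  · obtain ⟨q, hq1, hq2⟩ := hq
    exact (hiff (U.{u} n) (fun p hp => hp.1) ⟨q, hq1, fun h => hq2 (hUπ h)⟩).2 le_rfl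
  · intro π' hπ' hq' hS'
    obtain ⟨C, hC⟩ := (finite_and_bound.{u} n π' hπ' hq' hS').2
    exact ⟨C, fun G _ hE hL hN => ⟨hS' G hE hL hN, hC G hE hL hN⟩⟩

end Pool.Agent.Results.MP_cd48d2_al.LeastSufficientSet
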